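import Mathlib
import Pool.Agent.Results.MP_d393fc_an.Main
import Pool.Agent.Results.MP_d393fc_an.PosConj

set_option autoImplicit false

open Filter Topology MeasureTheory Complex Set
open scoped ComplexConjugate

namespace Pool.Agent.Results.MP_d393fc_an.BothFactors

/-- `Δ_0 = 1` and `Δ_k = k ∫_0^∞ ω(t) t^{k-1} dt` for `k ≥ 1`. -/
noncomputable def Delta (ω : ℝ → ℝ) (k : ℕ) : ℝ :=
  if k = 0 then 1 else k * ∫ t in Set.Ioi (0 : ℝ), ω t * t ^ (k - 1)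

/-- `L(r) = ∫_r^∞ ω(t) t⁻¹ dt`. -/
noncomputable def Lfun (ω : ℝ → ℝ) (r : ℝ) : ℝ := ∫ t in Set.Ioi r, ω t * t⁻¹

/-- `I_k(r) = ∫_0^r ω(t) t^{k-1} dt`. -/
noncomputable def Ifun (ω : ℝ → ℝ) (k : ℕ) (r : ℝ) : ℝ := ∫ t in Set.Ioc 0 r, ω t * t ^ (k - 1)

/-- `J_k(r) = ∫_r^∞ ω(t) t^{-k-1} dt`. -/
noncomputable def Jfun (ω : ℝ → ℝ) (k : ℕ) (r : ℝ) : ℝ := ∫ t in Set.Ioi r, ω t * (t ^ (k + 1))⁻¹

/-- The `k`-th term (`k ≥ 1`) of the series in the definition of `W_ω(z; a)`, in which `J_k(|a|)`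
carries the factor `(conj a)^{s k}`; only `s = -1` and `s = 1` are used. -/
noncomputable def Wterm (s : ℤ) (ω : ℝ → ℝ) (z a : ℂ) (k : ℕ) : ℂ :=
  ((a ^ k)⁻¹ * (Ifun ω k ‖a‖ : ℝ) - (conj a) ^ (s * (k : ℤ)) * (Jfun ω k ‖a‖ : ℝ)) *
    (z ^ k / (Delta ω k : ℝ))

/-- `W_ω(z; a) = L(|a|) - ∑_{k ≥ 1} (a^{-k} I_k(|a|) - (conj a)^{s k} J_k(|a|)) z^k / Δ_k`. -/
noncomputable def W (s : ℤ) (ω : ℝ → ℝ) (z a : ℂ) : ℂ :=
  (Lfun ω ‖a‖ : ℝ) - ∑' k : ℕ, Wterm s ω z a (k + 1)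

/-- `A_ω(z; a) = (1 - z/a) exp(-W_ω(z; a))`. -/
noncomputable def A (s : ℤ) (ω : ℝ → ℝ) (z a : ℂ) : ℂ := (1 - z / a) * Complex.exp (-W s ω z a)

theorem Wterm_neg (ω : ℝ → ℝ) (z a : ℂ) (k : ℕ) : Wterm (-1) ω z a k = Main.Wterm ω z a k := by
  have h : (conj a) ^ ((-1 : ℤ) * (k : ℤ)) = Main.conjPow a k := by
    rw [Main.conjPow, neg_one_mul, zpow_neg, zpow_natCast]
  unfold Wterm Main.Wterm
  rw [h]
  rfl

theorem Wterm_pos (ω : ℝ → ℝ) (z a : ℂ) (k : ℕ) : Wterm 1 ω z a k = PosConj.Wterm ω z a k := by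
  have h : (conj a) ^ ((1 : ℤ) * (k : ℤ)) = PosConj.conjPow a k := by
    rw [PosConj.conjPow, one_mul, zpow_natCast]
  unfold Wterm PosConj.Wterm
  rw [h]
  rfl

theorem A_neg (ω : ℝ → ℝ) (z a : ℂ) : A (-1) ω z a = Main.A ω z a := by
  unfold A Main.A W Main.W
  simp only [Wterm_neg]
  rfl

theorem A_pos (ω : ℝ → ℝ) (z a : ℂ) : A 1 ω z a = PosConj.A ω z a := by
  unfold A PosConj.A W PosConj.W
  simp only [Wterm_pos]
  rfl

/-- Let `ω` be continuous, positive and nonincreasing on `[0, ∞)` with all moments finite,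
differentiable on `(t₀, ∞)`, with `t ω'(t)/ω(t)` nonincreasing there and tending to `-∞`, and let
`z_k` be nonzero with nondecreasing moduli and `∑ L(|z_k|) < ∞`. Then, both for the factor
`A_ω(z; a)` in which `J_k(|a|)` carries `(conj a)^{-k}` (`s = -1`) and for the one in which it
carries `(conj a)^k` (`s = 1`), the product `∏ A_ω(z; z_k)` converges uniformly and absolutely on
every compact set to an entire function whose zero set is exactly `{z_k}`. -/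
theorem result (s : ℤ) (hs : s = -1 ∨ s = 1) (ω : ℝ → ℝ)
    (hcont : ContinuousOn ω (Set.Ici 0)) (hanti : AntitoneOn ω (Set.Ici 0))
    (hpos : ∀ t, 0 ≤ t → 0 < ω t)
    (hmom : ∀ k : ℕ, 1 ≤ k → IntegrableOn (fun t => ω t * t ^ (k - 1)) (Set.Ioi 0))
    (t₀ : ℝ) (ht₀ : 0 ≤ t₀)
    (hdiff : ∀ t, t₀ < t → DifferentiableAt ℝ ω t)
    (hmono : AntitoneOn (fun t => t * deriv ω t / ω t) (Set.Ioi t₀))
    (hlim : Tendsto (fun t => t * deriv ω t / ω t) atTop atBot)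
    (zs : ℕ → ℂ) (hz0 : ∀ k, zs k ≠ 0) (hzmono : Monotone fun k => ‖zs k‖)
    (hsum : Summable fun k => Lfun ω ‖zs k‖) :
    (∀ a : ℂ, a ≠ 0 → ∀ z : ℂ, Summable (fun k : ℕ => ‖Wterm s ω z a (k + 1)‖)) ∧
    ∃ P : ℂ → ℂ, Differentiable ℂ P ∧ (∀ z, P z = 0 ↔ ∃ k, z = zs k) ∧
      ∀ K : Set ℂ, IsCompact K →
        TendstoUniformlyOn (fun N z => ∏ k ∈ Finset.range N, A s ω z (zs k)) P atTop K ∧
        ∃ u : ℕ → ℝ, Summable u ∧ ∀ᶠ k in atTop, ∀ z ∈ K, ‖A s ω z (zs k) - 1‖ ≤ u k := by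
  rcases hs with rfl | rfl
  · simp only [Wterm_neg, A_neg]
    exact Main.result ω hcont hanti hpos hmom t₀ ht₀ hdiff hmono hlim zs hz0 hzmono hsum
  · simp only [Wterm_pos, A_pos]
    exact PosConj.result ω hcont hanti hpos hmom t₀ ht₀ hdiff hmono hlim zs hz0 hzmono hsum

end Pool.Agent.Results.MP_d393fc_an.BothFactors
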